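import Pool.Agent.H741.RS.Stm2

/-!
RS-TAY (helper66 for helper741): Taylor expansion of kernels.
-/

set_option autoImplicit false
open scoped ComplexConjugate

namespace Pool.Agent.H66.RS.TAY

open Pool.Agent.H741.RS MvPolynomial

variable {n : ℕ}

/-- derivative of `P` at `z` in direction `a` -/
noncomputable def dv (P : MvPolynomial (Fin n) ℂ) (z a : V n) : ℂ := ∑ i, ev (pderiv i P) z * a i

theorem ev_add (P Q : MvPolynomial (Fin n) ℂ) (z : V n) : ev (P + Q) z = ev P z + ev Q z := by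
  simp [ev]

theorem ev_mul (P Q : MvPolynomial (Fin n) ℂ) (z : V n) : ev (P * Q) z = ev P z * ev Q z := by
  simp [ev]

theorem ev_zero (z : V n) : ev (0 : MvPolynomial (Fin n) ℂ) z = 0 := by
  simp [ev]

theorem ev_C (c : ℂ) (z : V n) : ev (C c : MvPolynomial (Fin n) ℂ) z = c := by
  simp [ev]

theorem ev_X (i : Fin n) (z : V n) : ev (X i : MvPolynomial (Fin n) ℂ) z = z i := by
  simp [ev]

theorem ev_sum {ι : Type*} (s : Finset ι) (P : ι → MvPolynomial (Fin n) ℂ) (z : V n) :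
    ev (∑ i ∈ s, P i) z = ∑ i ∈ s, ev (P i) z := by
  simp [ev]

theorem dv_add (P Q : MvPolynomial (Fin n) ℂ) (z a : V n) : dv (P + Q) z a = dv P z a + dv Q z a := by
  unfold dv
  rw [← Finset.sum_add_distrib]
  refine Finset.sum_congr rfl fun i _ => ?_
  rw [map_add, ev_add]
  ring

theorem dv_C (c : ℂ) (z a : V n) : dv (C c : MvPolynomial (Fin n) ℂ) z a = 0 := by
  unfold dv
  refine Finset.sum_eq_zero fun i _ => ?_
  rw [pderiv_C, ev_zero, zero_mul]

theorem dv_mul (P Q : MvPolynomial (Fin n) ℂ) (z a : V n) :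
    dv (P * Q) z a = dv P z a * ev Q z + ev P z * dv Q z a := by
  unfold dv
  rw [Finset.sum_mul, Finset.mul_sum, ← Finset.sum_add_distrib]
  refine Finset.sum_congr rfl fun i _ => ?_
  rw [pderiv_mul, ev_add, ev_mul, ev_mul]
  ring

theorem dv_X (i : Fin n) (z a : V n) : dv (X i : MvPolynomial (Fin n) ℂ) z a = a i := by
  unfold dv
  rw [Finset.sum_eq_single i]
  · rw [pderiv_X_self]
    have : ev (1 : MvPolynomial (Fin n) ℂ) z = 1 := by simp [ev]
    rw [this, one_mul]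
  · intro j _ hj
    rw [pderiv_X_of_ne (Ne.symm hj), ev_zero, zero_mul]
  · intro h
    exact absurd (Finset.mem_univ i) h

theorem dv_add_dir (P : MvPolynomial (Fin n) ℂ) (z a b : V n) : dv P z (a + b) = dv P z a + dv P z b := by
  unfold dv
  rw [← Finset.sum_add_distrib]
  refine Finset.sum_congr rfl fun i _ => ?_
  rw [PiLp.add_apply]
  ring

theorem dv_smul_dir (P : MvPolynomial (Fin n) ℂ) (z a : V n) (r : ℝ) : dv P z (r • a) = r * dv P z a := by
  unfold dv
  rw [Finset.mul_sum]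
  refine Finset.sum_congr rfl fun i _ => ?_
  rw [PiLp.smul_apply, Complex.real_smul]
  ring

/-- growth bounds for a polynomial -/
def TB (k : ℕ) (P : MvPolynomial (Fin n) ℂ) : Prop :=
  ∃ C : ℝ, 0 ≤ C ∧ ∀ z a : V n, ‖a‖ ≤ 4 * ‖z‖ →
    ‖ev P z‖ ≤ C * (1 + ‖z‖) ^ k ∧ ‖ev P (z + a) - ev P z‖ ≤ C * ‖a‖ * (1 + ‖z‖) ^ k ∧
    ‖ev P (z + a) - ev P z - dv P z a‖ ≤ C * ‖a‖ ^ 2 * (1 + ‖z‖) ^ k

theorem TB_C (c : ℂ) : TB 0 (C c : MvPolynomial (Fin n) ℂ) := by
  refine ⟨‖c‖, norm_nonneg c, fun z a _ => ?_⟩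
  rw [ev_C, ev_C, dv_C, sub_self, sub_self, norm_zero, pow_zero, mul_one, mul_one, mul_one]
  refine ⟨le_refl _, by positivity, by positivity⟩

theorem TB_zero (k : ℕ) : TB k (0 : MvPolynomial (Fin n) ℂ) := by
  refine ⟨0, le_refl _, fun z a _ => ?_⟩
  have h : dv (0 : MvPolynomial (Fin n) ℂ) z a = 0 := by
    rw [← C_0]
    exact dv_C 0 z a
  rw [ev_zero, ev_zero, h]
  simp

theorem TB_add {k : ℕ} {P Q : MvPolynomial (Fin n) ℂ} (hP : TB k P) (hQ : TB k Q) : TB k (P + Q) := by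
  obtain ⟨C, hC, h⟩ := hP
  obtain ⟨D, hD, g⟩ := hQ
  refine ⟨C + D, add_nonneg hC hD, fun z a ha => ?_⟩
  obtain ⟨h1, h2, h3⟩ := h z a ha
  obtain ⟨g1, g2, g3⟩ := g z a ha
  rw [ev_add, ev_add, dv_add]
  refine ⟨?_, ?_, ?_⟩
  · refine (norm_add_le _ _).trans ?_
    linarith
  · have e : ev P (z + a) + ev Q (z + a) - (ev P z + ev Q z) =
        (ev P (z + a) - ev P z) + (ev Q (z + a) - ev Q z) := by ring
    rw [e]
    refine (norm_add_le _ _).trans ?_
    linarith
  · have e : ev P (z + a) + ev Q (z + a) - (ev P z + ev Q z) - (dv P z a + dv Q z a) =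
        (ev P (z + a) - ev P z - dv P z a) + (ev Q (z + a) - ev Q z - dv Q z a) := by ring
    rw [e]
    refine (norm_add_le _ _).trans ?_
    linarith

theorem TB_sum {ι : Type*} (s : Finset ι) {k : ℕ} (P : ι → MvPolynomial (Fin n) ℂ)
    (h : ∀ i ∈ s, TB k (P i)) : TB k (∑ i ∈ s, P i) := by
  classical
  induction s using Finset.induction_on with
  | empty =>
    rw [Finset.sum_empty]
    exact TB_zero k
  | insert i s hi ih =>
    rw [Finset.sum_insert hi]
    exact TB_add (h i (Finset.mem_insert_self i s)) (ih fun j hj => h j (Finset.mem_insert_of_mem hj))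

theorem coord_le (z : V n) (i : Fin n) : ‖z i‖ ≤ ‖z‖ := PiLp.norm_apply_le z i

theorem TB_mulX {k : ℕ} {P : MvPolynomial (Fin n) ℂ} (hP : TB k P) (i : Fin n) : TB (k + 1) (P * X i) := by
  obtain ⟨C, hC, h⟩ := hP
  refine ⟨5 * C, by linarith, fun z a ha => ?_⟩
  obtain ⟨h1, h2, h3⟩ := h z a ha
  have hz := coord_le z i
  have haa := coord_le a i
  have z0 := norm_nonneg z
  have a0 := norm_nonneg a
  have zi0 := norm_nonneg (z i)
  have ai0 := norm_nonneg (a i)
  set K := (1 + ‖z‖) ^ k with hK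
  have K0 : 0 ≤ K := by positivity
  have hCK : 0 ≤ C * K := mul_nonneg hC K0
  rw [ev_mul, ev_mul, dv_mul, dv_X, ev_X, ev_X, PiLp.add_apply, pow_succ, ← hK]
  refine ⟨?_, ?_, ?_⟩
  · rw [norm_mul]
    have s1 : ‖ev P z‖ * ‖z i‖ ≤ (C * K) * ‖z‖ := mul_le_mul h1 hz zi0 hCK
    nlinarith
  · have e : ev P (z + a) * (z i + a i) - ev P z * z i =
        (ev P (z + a) - ev P z) * (z i + a i) + ev P z * a i := by ring
    rw [e]
    refine (norm_add_le _ _).trans ?_
    rw [norm_mul, norm_mul]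
    have s0 : ‖z i + a i‖ ≤ 5 * ‖z‖ := by
      refine (norm_add_le _ _).trans ?_
      linarith
    have s1 : ‖ev P (z + a) - ev P z‖ * ‖z i + a i‖ ≤ (C * ‖a‖ * K) * (5 * ‖z‖) :=
      mul_le_mul h2 s0 (norm_nonneg _) (by positivity)
    have s2 : ‖ev P z‖ * ‖a i‖ ≤ (C * K) * ‖a‖ := mul_le_mul h1 haa ai0 hCK
    have s3 : 0 ≤ C * K * ‖a‖ := by positivity
    nlinarith
  · have e : ev P (z + a) * (z i + a i) - ev P z * z i - (dv P z a * z i + ev P z * a i) =
        (ev P (z + a) - ev P z - dv P z a) * z i + (ev P (z + a) - ev P z) * a i := by ring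
    rw [e]
    refine (norm_add_le _ _).trans ?_
    rw [norm_mul, norm_mul]
    have s1 : ‖ev P (z + a) - ev P z - dv P z a‖ * ‖z i‖ ≤ (C * ‖a‖ ^ 2 * K) * ‖z‖ :=
      mul_le_mul h3 hz zi0 (by positivity)
    have s2 : ‖ev P (z + a) - ev P z‖ * ‖a i‖ ≤ (C * ‖a‖ * K) * ‖a‖ :=
      mul_le_mul h2 haa ai0 (by positivity)
    have s3 : 0 ≤ C * K * ‖a‖ ^ 2 := by positivity
    have s4 : 0 ≤ C * K * ‖a‖ ^ 2 * ‖z‖ := by positivity
    nlinarith

theorem TB_monomial : ∀ (d : ℕ) (s : Fin n →₀ ℕ) (c : ℂ), s.degree = d → TB d (monomial s c) := by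
  intro d
  induction d with
  | zero =>
    intro s c hs
    rw [Finsupp.degree_eq_zero_iff] at hs
    subst hs
    exact TB_C c
  | succ d ih =>
    intro s c hs
    have h1 : s ≠ 0 := by
      intro h
      rw [h, map_zero] at hs
      omega
    obtain ⟨i, hi⟩ := Finsupp.ne_iff.mp h1
    have hi' : 1 ≤ s i := Nat.one_le_iff_ne_zero.mpr hi
    have h2 : s = (s - Finsupp.single i 1) + Finsupp.single i 1 := by
      refine (tsub_add_cancel_of_le ?_).symm
      rw [Finsupp.single_le_iff]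
      exact hi'
    have h3 : (s - Finsupp.single i 1).degree = d := by
      rw [h2, map_add, Finsupp.degree_single] at hs
      omega
    rw [h2, monomial_add_single, pow_one]
    exact TB_mulX (ih _ c h3) i

theorem TB_hom {d : ℕ} {P : MvPolynomial (Fin n) ℂ} (hP : P.IsHomogeneous d) : TB d P := by
  rw [P.as_sum]
  refine TB_sum _ _ fun s hs => ?_
  refine TB_monomial d s _ ?_
  rw [Finsupp.degree_eq_weight_one]
  exact hP (mem_support_iff.mp hs)

/-- the polynomial whose value at `z` is the derivative of `P` at `z` in the direction `T z` -/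
noncomputable def DT (T : V n →L[ℂ] V n) (P : MvPolynomial (Fin n) ℂ) : MvPolynomial (Fin n) ℂ :=
  ∑ i, pderiv i P * ∑ j, C ((T (EuclideanSpace.single j 1)) i) * X j

theorem T_coord (T : V n →L[ℂ] V n) (z : V n) (i : Fin n) :
    (T z) i = ∑ j, (T (EuclideanSpace.single j 1)) i * z j := by
  have h1 : z = ∑ j, z j • EuclideanSpace.single j (1 : ℂ) := by
    ext k
    simp [Pi.single_apply]
  conv_lhs => rw [h1, map_sum]
  rw [WithLp.ofLp_sum, Finset.sum_apply]
  refine Finset.sum_congr rfl fun j _ => ?_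
  rw [map_smul, PiLp.smul_apply, smul_eq_mul, mul_comm]

theorem ev_DT (T : V n →L[ℂ] V n) (P : MvPolynomial (Fin n) ℂ) (z : V n) : ev (DT T P) z = dv P z (T z) := by
  unfold DT dv
  rw [ev_sum]
  refine Finset.sum_congr rfl fun i _ => ?_
  rw [ev_mul, ev_sum, T_coord T z i]
  congr 1
  refine Finset.sum_congr rfl fun j _ => ?_
  rw [ev_mul, ev_C, ev_X]

theorem DT_hom (T : V n →L[ℂ] V n) {P : MvPolynomial (Fin n) ℂ} {d : ℕ} (hP : P.IsHomogeneous d) :
    (DT T P).IsHomogeneous d := by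
  unfold DT
  refine IsHomogeneous.sum _ _ _ fun i _ => ?_
  have h1 : (∑ j, C ((T (EuclideanSpace.single j 1)) i) * X j : MvPolynomial (Fin n) ℂ).IsHomogeneous 1 :=
    IsHomogeneous.sum _ _ _ fun j _ => isHomogeneous_C_mul_X _ _
  have h2 : (pderiv i P).IsHomogeneous (d - 1) := hP.pderiv
  rcases Nat.eq_zero_or_pos d with h | h
  · subst h
    have h3 : pderiv i P = 0 := by
      rw [← totalDegree_zero_iff_isHomogeneous, totalDegree_eq_zero_iff_eq_C] at hP
      rw [hP, pderiv_C]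
    rw [h3, zero_mul]
    exact isHomogeneous_zero _ _ _
  · have h3 := h2.mul h1
    rwa [Nat.sub_add_cancel h] at h3

/-! ### Kernels -/

theorem ker_fin {k l : ℕ} {u : V n → V n → ℂ} {ι : Type*} [Fintype ι]
    (a b : ι → MvPolynomial (Fin n) ℂ) (hab : ∀ i, (a i).IsHomogeneous k ∧ (b i).IsHomogeneous l)
    (h : ∀ z w, u z w = ∑ i, ev (a i) z * conj (ev (b i) w)) : HKer k l u := by
  refine ⟨Fintype.card ι, fun i => a ((Fintype.equivFin ι).symm i), fun i => b ((Fintype.equivFin ι).symm i),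
    fun i => hab _, fun z w => ?_⟩
  rw [h z w]
  exact ((Fintype.equivFin ι).symm.sum_comp fun i => ev (a i) z * conj (ev (b i) w)).symm

theorem ker_zero (k l : ℕ) : HKer k l (0 : V n → V n → ℂ) :=
  ⟨0, fun _ => 0, fun _ => 0, fun i => i.elim0, fun z w => by simp⟩

theorem ker_one {k l : ℕ} {P Q : MvPolynomial (Fin n) ℂ} (hP : P.IsHomogeneous k) (hQ : Q.IsHomogeneous l) :
    HKer k l fun z w => ev P z * conj (ev Q w) :=
  ⟨1, fun _ => P, fun _ => Q, fun _ => ⟨hP, hQ⟩, fun z w => by simp⟩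

theorem ker_add {k l : ℕ} {u v : V n → V n → ℂ} (hu : HKer k l u) (hv : HKer k l v) :
    HKer k l fun z w => u z w + v z w := by
  obtain ⟨m, a, b, hab, h⟩ := hu
  obtain ⟨m', a', b', hab', h'⟩ := hv
  refine ker_fin (ι := Fin m ⊕ Fin m') (Sum.elim a a') (Sum.elim b b') ?_ fun z w => ?_
  · rintro (i | i)
    · exact hab i
    · exact hab' i
  · rw [Fintype.sum_sum_type, h, h']
    rfl

theorem ker_smul {k l : ℕ} {u : V n → V n → ℂ} (c : ℂ) (hu : HKer k l u) :
    HKer k l fun z w => c * u z w := by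
  obtain ⟨m, a, b, hab, h⟩ := hu
  refine ⟨m, fun i => C c * a i, b, fun i => ⟨(hab i).1.C_mul c, (hab i).2⟩, fun z w => ?_⟩
  change c * u z w = ∑ i, ev (C c * a i) z * conj (ev (b i) w)
  rw [h, Finset.mul_sum]
  refine Finset.sum_congr rfl fun i _ => ?_
  rw [ev_mul, ev_C]
  ring

theorem ker_swap {k l : ℕ} {u : V n → V n → ℂ} (hu : HKer k l u) :
    HKer l k fun z w => conj (u w z) := by
  obtain ⟨m, a, b, hab, h⟩ := hu
  refine ⟨m, b, a, fun i => ⟨(hab i).2, (hab i).1⟩, fun z w => ?_⟩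
  change conj (u w z) = ∑ i, ev (b i) z * conj (ev (a i) w)
  rw [h, map_sum]
  refine Finset.sum_congr rfl fun i _ => ?_
  rw [map_mul, Complex.conj_conj, mul_comm]

theorem ker_sum {k l : ℕ} {ι : Type*} (s : Finset ι) (u : ι → V n → V n → ℂ)
    (h : ∀ i ∈ s, HKer k l (u i)) : HKer k l fun z w => ∑ i ∈ s, u i z w := by
  classical
  induction s using Finset.induction_on with
  | empty =>
    simp only [Finset.sum_empty]
    exact ker_zero k l
  | insert i s hi ih =>
    simp only [Finset.sum_insert hi]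
    exact ker_add (h i (Finset.mem_insert_self i s)) (ih fun j hj => h j (Finset.mem_insert_of_mem hj))

/-! ### The derivative of a kernel -/

/-- `L` is the derivative of `u`, with bounds of exponent `2 k` -/
def Tay (k : ℕ) (u : V n → V n → ℂ) (L : V n → V n → (V n × V n →ₗ[ℝ] ℂ)) : Prop :=
  ∃ C : ℝ, 0 ≤ C ∧ ∀ z w a b : V n, ‖a‖ ≤ 4 * ‖z‖ → ‖b‖ ≤ 4 * ‖w‖ →
    ‖u (z + a) (w + b) - u z w - L z w (a, b)‖ ≤ C * (‖a‖ + ‖b‖) ^ 2 * (1 + ‖z‖ + ‖w‖) ^ (2 * k)

theorem tay_zero (k : ℕ) : Tay k (0 : V n → V n → ℂ) (fun _ _ => 0) := by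
  refine ⟨0, le_refl _, fun z w a b _ _ => ?_⟩
  simp

theorem tay_add {k : ℕ} {u v : V n → V n → ℂ} {L M : V n → V n → (V n × V n →ₗ[ℝ] ℂ)}
    (hu : Tay k u L) (hv : Tay k v M) :
    Tay k (fun z w => u z w + v z w) (fun z w => L z w + M z w) := by
  obtain ⟨C, hC, h⟩ := hu
  obtain ⟨D, hD, g⟩ := hv
  refine ⟨C + D, add_nonneg hC hD, fun z w a b ha hb => ?_⟩
  have h1 := h z w a b ha hb
  have g1 := g z w a b ha hb
  rw [LinearMap.add_apply]
  have e : u (z + a) (w + b) + v (z + a) (w + b) - (u z w + v z w) - (L z w (a, b) + M z w (a, b)) =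
      (u (z + a) (w + b) - u z w - L z w (a, b)) + (v (z + a) (w + b) - v z w - M z w (a, b)) := by ring
  rw [e]
  refine (norm_add_le _ _).trans ?_
  linarith

theorem tay_sum {k : ℕ} {ι : Type*} (s : Finset ι) (u : ι → V n → V n → ℂ)
    (L : ι → V n → V n → (V n × V n →ₗ[ℝ] ℂ)) (h : ∀ i ∈ s, Tay k (u i) (L i)) :
    Tay k (fun z w => ∑ i ∈ s, u i z w) (fun z w => ∑ i ∈ s, L i z w) := by
  classical
  induction s using Finset.induction_on with
  | empty =>
    simp only [Finset.sum_empty]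
    exact tay_zero k
  | insert i s hi ih =>
    simp only [Finset.sum_insert hi]
    exact tay_add (h i (Finset.mem_insert_self i s)) (ih fun j hj => h j (Finset.mem_insert_of_mem hj))

/-- the derivative of `P(z) conj Q(w)` -/
noncomputable def LP (P Q : MvPolynomial (Fin n) ℂ) (z w : V n) : V n × V n →ₗ[ℝ] ℂ where
  toFun p := dv P z p.1 * conj (ev Q w) + ev P z * conj (dv Q w p.2)
  map_add' p q := by
    rw [Prod.fst_add, Prod.snd_add, dv_add_dir, dv_add_dir, map_add]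
    ring
  map_smul' r p := by
    rw [Prod.smul_fst, Prod.smul_snd, dv_smul_dir, dv_smul_dir, map_mul, Complex.conj_ofReal,
      RingHom.id_apply, Complex.real_smul]
    ring

theorem tay_prod {k i j : ℕ} (hi : i ≤ k) (hj : j ≤ k) {P Q : MvPolynomial (Fin n) ℂ}
    (hP : TB i P) (hQ : TB j Q) : Tay k (fun z w => ev P z * conj (ev Q w)) (LP P Q) := by
  obtain ⟨C, hC, h⟩ := hP
  obtain ⟨D, hD, g⟩ := hQ
  refine ⟨C * D, mul_nonneg hC hD, fun z w a b ha hb => ?_⟩
  obtain ⟨h1, h2, h3⟩ := h z a ha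
  obtain ⟨g1, g2, g3⟩ := g w b hb
  change ‖ev P (z + a) * conj (ev Q (w + b)) - ev P z * conj (ev Q w) -
    (dv P z a * conj (ev Q w) + ev P z * conj (dv Q w b))‖ ≤ _
  have e : ev P (z + a) * conj (ev Q (w + b)) - ev P z * conj (ev Q w) -
      (dv P z a * conj (ev Q w) + ev P z * conj (dv Q w b)) =
      (ev P (z + a) - ev P z - dv P z a) * conj (ev Q w) +
      ev P z * conj (ev Q (w + b) - ev Q w - dv Q w b) +
      (ev P (z + a) - ev P z) * conj (ev Q (w + b) - ev Q w) := by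
    simp only [map_sub]
    ring
  rw [e]
  refine (norm_add₃_le).trans ?_
  simp only [norm_mul, RCLike.norm_conj]
  set A := (1 + ‖z‖) ^ i with hA
  set B := (1 + ‖w‖) ^ j with hB
  have z0 := norm_nonneg z
  have w0 := norm_nonneg w
  have a0 := norm_nonneg a
  have b0 := norm_nonneg b
  have A0 : 0 ≤ A := by positivity
  have B0 : 0 ≤ B := by positivity
  have hAB : A * B ≤ (1 + ‖z‖ + ‖w‖) ^ (2 * k) := by
    have s1 : A ≤ (1 + ‖z‖ + ‖w‖) ^ k := by
      refine (pow_le_pow_left₀ (by positivity) (by linarith : 1 + ‖z‖ ≤ 1 + ‖z‖ + ‖w‖) i).trans ?_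
      exact pow_le_pow_right₀ (by linarith) hi
    have s2 : B ≤ (1 + ‖z‖ + ‖w‖) ^ k := by
      refine (pow_le_pow_left₀ (by positivity) (by linarith : 1 + ‖w‖ ≤ 1 + ‖z‖ + ‖w‖) j).trans ?_
      exact pow_le_pow_right₀ (by linarith) hj
    have s3 := mul_le_mul s1 s2 B0 (by positivity)
    rwa [← pow_add, ← two_mul] at s3
  have t1 : ‖ev P (z + a) - ev P z - dv P z a‖ * ‖ev Q w‖ ≤ (C * ‖a‖ ^ 2 * A) * (D * B) :=
    mul_le_mul h3 g1 (norm_nonneg _) (by positivity)
  have t2 : ‖ev P z‖ * ‖ev Q (w + b) - ev Q w - dv Q w b‖ ≤ (C * A) * (D * ‖b‖ ^ 2 * B) :=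
    mul_le_mul h1 g3 (norm_nonneg _) (by positivity)
  have t3 : ‖ev P (z + a) - ev P z‖ * ‖ev Q (w + b) - ev Q w‖ ≤ (C * ‖a‖ * A) * (D * ‖b‖ * B) :=
    mul_le_mul h2 g2 (norm_nonneg _) (by positivity)
  have t4 : C * D * (‖a‖ + ‖b‖) ^ 2 * (A * B) ≤ C * D * (‖a‖ + ‖b‖) ^ 2 * (1 + ‖z‖ + ‖w‖) ^ (2 * k) :=
    mul_le_mul_of_nonneg_left hAB (by positivity)
  have t5 : 0 ≤ C * D * (A * B) * (‖a‖ * ‖b‖) := by positivity
  nlinarith

/-- conjugation and exchange of the variables -/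
noncomputable def sw (L : V n → V n → (V n × V n →ₗ[ℝ] ℂ)) (z w : V n) : V n × V n →ₗ[ℝ] ℂ where
  toFun p := conj (L w z (p.2, p.1))
  map_add' p q := by
    rw [← map_add, ← map_add]
    rfl
  map_smul' r p := by
    have h : L w z ((r • p).2, (r • p).1) = r • L w z (p.2, p.1) := by
      rw [← map_smul]
      rfl
    rw [h, RingHom.id_apply, Complex.real_smul, Complex.real_smul, map_mul, Complex.conj_ofReal]

theorem tay_sw {k : ℕ} {u : V n → V n → ℂ} {L : V n → V n → (V n × V n →ₗ[ℝ] ℂ)} (hu : Tay k u L) :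
    Tay k (fun z w => conj (u w z)) (sw L) := by
  obtain ⟨C, hC, h⟩ := hu
  refine ⟨C, hC, fun z w a b ha hb => ?_⟩
  have h1 := h w z b a hb ha
  change ‖conj (u (w + b) (z + a)) - conj (u w z) - conj (L w z (b, a))‖ ≤ _
  rw [← map_sub, ← map_sub, RCLike.norm_conj]
  have e1 : ‖a‖ + ‖b‖ = ‖b‖ + ‖a‖ := add_comm _ _
  have e2 : 1 + ‖z‖ + ‖w‖ = 1 + ‖w‖ + ‖z‖ := by ring
  rw [e1, e2]
  exact h1

theorem tay_half {k : ℕ} {u : V n → V n → ℂ} {L : V n → V n → (V n × V n →ₗ[ℝ] ℂ)} (hu : Tay k u L) :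
    Tay k (fun z w => (1 / 2 : ℂ) * u z w) (fun z w => (1 / 2 : ℝ) • L z w) := by
  obtain ⟨C, hC, h⟩ := hu
  refine ⟨C, hC, fun z w a b ha hb => ?_⟩
  have h1 := h z w a b ha hb
  rw [LinearMap.smul_apply, Complex.real_smul]
  have e : (1 / 2 : ℂ) * u (z + a) (w + b) - (1 / 2 : ℂ) * u z w - ((1 / 2 : ℝ) : ℂ) * L z w (a, b) =
      (1 / 2 : ℂ) * (u (z + a) (w + b) - u z w - L z w (a, b)) := by
    push_cast
    ring
  rw [e, norm_mul]
  have h2 : ‖(1 / 2 : ℂ)‖ = 1 / 2 := by norm_num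
  rw [h2]
  have h3 := norm_nonneg (u (z + a) (w + b) - u z w - L z w (a, b))
  linarith

/-- the kernel of a homogeneous component and its derivative -/
theorem comp {i j : ℕ} {v : V n → V n → ℂ} (hv : HKer i j v) :
    ∃ L : V n → V n → (V n × V n →ₗ[ℝ] ℂ), (∀ k, i ≤ k → j ≤ k → Tay k v L) ∧
      (∀ T : V n →L[ℂ] V n, HKer i j fun z w => L z w (T z, T w)) ∧
      (v = 0 → L = fun _ _ => 0) := by
  by_cases h0 : v = 0
  · refine ⟨fun _ _ => 0, fun k _ _ => ?_, fun T => ker_zero i j, fun _ => rfl⟩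
    rw [h0]
    exact tay_zero k
  · obtain ⟨m, a, b, hab, h⟩ := hv
    refine ⟨fun z w => ∑ l, LP (a l) (b l) z w, fun k hi hj => ?_, fun T => ?_, fun h1 => absurd h1 h0⟩
    · have h1 := tay_sum (k := k) Finset.univ (fun l z w => ev (a l) z * conj (ev (b l) w))
        (fun l => LP (a l) (b l)) fun l _ => tay_prod hi hj (TB_hom (hab l).1) (TB_hom (hab l).2)
      have h2 : v = fun z w => ∑ l, ev (a l) z * conj (ev (b l) w) := by
        funext z w
        exact h z w
      rw [h2]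
      exact h1
    · have h1 := ker_sum (k := i) (l := j) Finset.univ
        (fun l z w => ev (DT T (a l)) z * conj (ev (b l) w) + ev (a l) z * conj (ev (DT T (b l)) w))
        fun l _ => ker_add (ker_one (DT_hom T (hab l).1) (hab l).2) (ker_one (hab l).1 (DT_hom T (hab l).2))
      have h2 : (fun z w => (∑ l, LP (a l) (b l) z w) (T z, T w)) = fun z w =>
          ∑ l, (ev (DT T (a l)) z * conj (ev (b l) w) + ev (a l) z * conj (ev (DT T (b l)) w)) := by
        funext z w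
        rw [LinearMap.sum_apply]
        refine Finset.sum_congr rfl fun l _ => ?_
        rw [ev_DT, ev_DT]
        rfl
      rw [h2]
      exact h1

theorem t_TAY : S_TAY := by
  intro n k u hH hA
  obtain ⟨v, hv, v01, v10, v11, hu⟩ := hA
  choose L hL1 hL2 hL3 using fun i j => comp (hv i j)
  set M : V n → V n → (V n × V n →ₗ[ℝ] ℂ) := fun z w =>
    ∑ i ∈ Finset.range (k + 1), ∑ j ∈ Finset.range (k + 1), L i j z w with hM
  have hT : Tay k u M := by
    have h1 : Tay k (fun z w => ∑ i ∈ Finset.range (k + 1), ∑ j ∈ Finset.range (k + 1), v i j z w) M := by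
      refine tay_sum _ (fun i z w => ∑ j ∈ Finset.range (k + 1), v i j z w)
        (fun i z w => ∑ j ∈ Finset.range (k + 1), L i j z w) fun i hi => ?_
      refine tay_sum _ (fun j => v i j) (fun j => L i j) fun j hj => ?_
      exact hL1 i j k (Nat.lt_succ_iff.mp (Finset.mem_range.mp hi))
        (Nat.lt_succ_iff.mp (Finset.mem_range.mp hj))
    have h2 : u = fun z w => ∑ i ∈ Finset.range (k + 1), ∑ j ∈ Finset.range (k + 1), v i j z w := by
      funext z w
      exact hu z w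
    rw [h2]
    exact h1
  have hS := tay_half (tay_add hT (tay_sw hT))
  have hu2 : (fun z w => (1 / 2 : ℂ) * (u z w + conj (u w z))) = u := by
    funext z w
    rw [← hH w z]
    ring
  rw [hu2] at hS
  obtain ⟨C, hC, hb⟩ := hS
  refine ⟨_, C, hC, hb, fun T => ⟨fun z w => ?_, ?_⟩⟩
  · change (1 / 2 : ℝ) • (M w z (T w, T z) + conj (M z w (T z, T w))) =
      conj ((1 / 2 : ℝ) • (M z w (T z, T w) + conj (M w z (T w, T z))))
    rw [Complex.real_smul, Complex.real_smul, map_mul, Complex.conj_ofReal, map_add, Complex.conj_conj]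
    ring
  · refine ⟨fun i j z w => (1 / 2 : ℂ) * (L i j z w (T z, T w) + conj (L j i w z (T w, T z))),
      fun i j => ker_smul _ (ker_add (hL2 i j T) (ker_swap (hL2 j i T))), ?_, ?_, ?_, fun z w => ?_⟩
    · funext z w
      simp only [hL3 0 1 v01, hL3 1 0 v10]
      simp
    · funext z w
      simp only [hL3 0 1 v01, hL3 1 0 v10]
      simp
    · funext z w
      simp only [hL3 1 1 v11]
      simp
    · change (1 / 2 : ℝ) • (M z w (T z, T w) + conj (M w z (T w, T z))) = _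
      rw [Complex.real_smul]
      simp only [hM, LinearMap.sum_apply, map_sum]
      simp only [← Finset.mul_sum, Finset.sum_add_distrib]
      rw [Finset.sum_comm (f := fun i j => conj (L i j w z (T w, T z)))]
      push_cast
      ring

end Pool.Agent.H66.RS.TAY
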